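import Mathlib
import Pool.Agent.Helper65.MT.St

set_option autoImplicit false

open Finset Pool.Agent.Helper65.MT Pool.Agent.Helper16

namespace Pool.Agent.Helper77.MT

theorem m_CF : StCF := by
  intro hFC hGE
  obtain ⟨X1, hX1⟩ := hFC hGE
  refine ⟨max X1 (Real.exp (Real.exp 4)), ?_⟩
  intro t ht H D hH1 hH2 hD1 hD2
  have htX : X1 ≤ t := le_trans (le_max_left _ _) ht
  have hte : Real.exp (Real.exp 4) ≤ t := le_trans (le_max_right _ _) ht
  have ht0 : (0 : ℝ) < t := lt_of_lt_of_le (Real.exp_pos _) hte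
  set s := Real.log t with hs
  have hs4 : Real.exp 4 ≤ s := by
    rw [hs, Real.le_log_iff_exp_le ht0]
    exact hte
  have h5 : (5 : ℝ) ≤ Real.exp 4 := by
    have := Real.add_one_le_exp (4 : ℝ)
    linarith
  have hs5 : (5 : ℝ) ≤ s := h5.trans hs4
  have hs0 : 0 < s := by linarith
  have hu : (4 : ℝ) ≤ Real.log s := by
    rw [Real.le_log_iff_exp_le hs0]
    exact hs4
  have hD0 : (0 : ℝ) < D := by exact_mod_cast hD1
  have hsq : Real.sqrt s * Real.sqrt s = s := Real.mul_self_sqrt hs0.le
  have hsq2 : (2 : ℝ) ≤ Real.sqrt s := by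
    rw [Real.le_sqrt (by norm_num) hs0.le]
    linarith
  have hsD : (2 : ℝ) ≤ s / D := by
    rw [le_div_iff₀ hD0]
    nlinarith
  set N := ⌊s / D⌋₊ with hN
  have hN2 : 2 ≤ N := by
    rw [hN]
    exact Nat.le_floor (by exact_mod_cast hsD)
  have hNle : (N : ℝ) ≤ s / D := Nat.floor_le (by positivity)
  have hNlt : s / D < N + 1 := Nat.lt_floor_add_one _
  have hNs : (N : ℝ) ≤ s := by
    refine hNle.trans ?_
    rw [div_le_iff₀ hD0]
    have : (1 : ℝ) ≤ D := by exact_mod_cast hD1
    nlinarith
  have hNpos : (0 : ℝ) < N := by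
    have : 0 < N := by omega
    exact_mod_cast this
  have hinv : (1 : ℝ) / N ≤ 2 * D / s := by
    rw [div_le_div_iff₀ hNpos hs0]
    have h1 : s / D * D = s := by field_simp
    have h2 : s < (N + 1) * D := by
      calc s = s / D * D := h1.symm
        _ < (N + 1) * D := by
          exact mul_lt_mul_of_pos_right hNlt hD0
    have h3 : (1 : ℝ) * D ≤ N * D := by
      apply mul_le_mul_of_nonneg_right _ hD0.le
      have : 1 ≤ N := by omega
      exact_mod_cast this
    nlinarith
  have hlev : 60 * (t : ℝ) * (1 / N + 2 * D * Real.log s / s) ≤ 240 * t * D * Real.log s / s := by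
    have h1 : 1 / (N : ℝ) ≤ 2 * D * Real.log s / s := by
      refine hinv.trans ?_
      apply div_le_div_of_nonneg_right _ hs0.le
      nlinarith
    calc 60 * (t : ℝ) * (1 / N + 2 * D * Real.log s / s)
        ≤ 60 * (t : ℝ) * (2 * D * Real.log s / s + 2 * D * Real.log s / s) := by gcongr
      _ = 240 * t * D * Real.log s / s := by ring
  set S := (Finset.Ioc t (t + H)).filter (fun n =>
    240 * (t : ℝ) * D * Real.log s / s < lam n) with hS
  have hDN : 0 < D * N := Nat.mul_pos (by omega) (by omega)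
  have hsub : S ⊆ (Finset.range (H / (D * N) + 1)).biUnion
      (fun i => S.filter (fun n => (n - t) / (D * N) = i)) := by
    intro n hn
    rw [Finset.mem_biUnion]
    refine ⟨(n - t) / (D * N), ?_, ?_⟩
    · rw [Finset.mem_range]
      have h1 : n - t ≤ H := by
        rw [hS, Finset.mem_filter, Finset.mem_Ioc] at hn
        omega
      have := Nat.div_le_div_right (c := D * N) h1
      omega
    · rw [Finset.mem_filter]
      exact ⟨hn, rfl⟩
  have hcard : ∀ i ∈ Finset.range (H / (D * N) + 1),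
      (S.filter (fun n => (n - t) / (D * N) = i)).card ≤ N := by
    intro i hi
    rw [Finset.mem_range] at hi
    have hi2 : i * (D * N) ≤ H := by
      have h1 : i ≤ H / (D * N) := by omega
      exact (Nat.mul_le_mul_right _ h1).trans (Nat.div_mul_le_self _ _)
    refine (hX1 t htX D N (t + i * (D * N)) hD1 hD2 hN2 hNs (by omega) (by omega) _ ?_).le
    intro n hn
    rw [Finset.mem_filter, hS, Finset.mem_filter, Finset.mem_Ioc] at hn
    obtain ⟨⟨⟨h1, h2⟩, h3⟩, h4⟩ := hn
    have h8 := Nat.div_add_mod (n - t) (D * N)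
    have h9 := Nat.mod_lt (n - t) hDN
    have h5 : D * N * ((n - t) / (D * N)) ≤ n - t := by omega
    have h6 : n - t < D * N * ((n - t) / (D * N)) + D * N := by omega
    rw [h4] at h5 h6
    have h7 : D * N * i = i * (D * N) := Nat.mul_comm _ _
    rw [h7] at h5 h6
    refine ⟨by omega, by omega, lt_of_le_of_lt hlev h3⟩
  have htot : S.card ≤ (H / (D * N) + 1) * N := by
    calc S.card ≤ _ := Finset.card_le_card hsub
      _ ≤ ∑ i ∈ Finset.range (H / (D * N) + 1), _ := Finset.card_biUnion_le
      _ ≤ ∑ i ∈ Finset.range (H / (D * N) + 1), N := Finset.sum_le_sum hcard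
      _ = (H / (D * N) + 1) * N := by simp
  have hH0 : (0 : ℝ) ≤ H := Nat.cast_nonneg _
  calc ((S.card : ℕ) : ℝ) ≤ (((H / (D * N) + 1) * N : ℕ) : ℝ) := by exact_mod_cast htot
    _ = ((H / (D * N) : ℕ) : ℝ) * N + N := by push_cast; ring
    _ ≤ ((H : ℝ) / ((D * N : ℕ) : ℝ)) * N + H / D := by
        have h1 : ((H / (D * N) : ℕ) : ℝ) ≤ (H : ℝ) / ((D * N : ℕ) : ℝ) := Nat.cast_div_le
        have h2 : (N : ℝ) ≤ H / D := by
          refine hNle.trans ?_
          gcongr
        have h3 := mul_le_mul_of_nonneg_right h1 hNpos.le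
        linarith
    _ = 2 * H / D := by
        push_cast
        field_simp
        ring

end Pool.Agent.Helper77.MT
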