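import Mathlib
import Pool.Agent.Helper65.MT.St

set_option autoImplicit false

open Finset Pool.Agent.Helper65.MT Pool.Agent.Helper16

namespace Pool.Agent.Helper77.MT

theorem sl_low (x a : ℝ) (ha : 0 < a) : ∀ I : ℕ, x ≤ a * 2 ^ I →
    x ≤ a + ∑ i ∈ Finset.range I, (if a * 2 ^ i < x then a * 2 ^ i else 0)
  | 0, h => by simpa using h
  | I + 1, h => by
    rw [Finset.sum_range_succ]
    by_cases h1 : x ≤ a * 2 ^ I
    · have := sl_low x a ha I h1
      have h2 : (0 : ℝ) ≤ (if a * 2 ^ I < x then a * 2 ^ I else 0) := by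
        split_ifs
        · positivity
        · exact le_rfl
      linarith
    · push Not at h1
      have h3 : ∑ i ∈ Finset.range I, (if a * 2 ^ i < x then a * 2 ^ i else 0) =
          ∑ i ∈ Finset.range I, a * 2 ^ i := by
        apply Finset.sum_congr rfl
        intro i hi
        rw [if_pos]
        refine lt_of_le_of_lt ?_ h1
        apply mul_le_mul_of_nonneg_left _ ha.le
        exact pow_le_pow_right₀ (by norm_num) (Finset.mem_range.1 hi).le
      have h4 : ∀ k : ℕ, ∑ i ∈ Finset.range k, a * (2 : ℝ) ^ i = a * 2 ^ k - a := by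
        intro k
        induction k with
        | zero => simp
        | succ k ih => rw [Finset.sum_range_succ, ih]; ring
      rw [h3, h4, if_pos h1]
      have h5 : a * 2 ^ (I + 1) = a * 2 ^ I + a * 2 ^ I := by ring
      linarith

theorem sl_high (x b : ℝ) (hb : 0 < b) (hx : x ≤ b / 2) : ∀ K : ℕ, 1 ≤ K → b / 2 ^ K < x →
    x ≤ ∑ k ∈ Finset.Icc 2 K, (if b / 2 ^ k < x then 2 * b / 2 ^ k else 0)
  | 0, h, _ => absurd h (by omega)
  | 1, _, h => by
    rw [pow_one] at h
    linarith
  | K + 2, _, h => by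
    rw [Finset.sum_Icc_succ_top (by omega)]
    have h0 : (0 : ℝ) ≤ ∑ k ∈ Finset.Icc 2 (K + 1), (if b / 2 ^ k < x then 2 * b / 2 ^ k else 0) := by
      apply Finset.sum_nonneg
      intro k _
      split_ifs
      · positivity
      · exact le_rfl
    by_cases h1 : b / 2 ^ (K + 1) < x
    · have := sl_high x b hb hx (K + 1) (by omega) h1
      have h2 : (0 : ℝ) ≤ (if b / 2 ^ (K + 1 + 1) < x then 2 * b / 2 ^ (K + 1 + 1) else 0) := by
        split_ifs <;> first | positivity | exact le_rfl
      linarith
    · push Not at h1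
      rw [if_pos h]
      have h5 : 2 * b / 2 ^ (K + 1 + 1) = b / 2 ^ (K + 1) := by
        rw [pow_succ]
        field_simp
      rw [h5]
      linarith

theorem m_SL : StSL := by
  intro J f a b I K ha hb hK1 hI hK hab
  have h1 : (J.filter fun n => b / 2 ^ 1 < f n).card ≤ 1 := by
    have h := hK 1 le_rfl hK1
    simp only [pow_one] at h ⊢
    omega
  obtain ⟨m, hm⟩ := Finset.card_le_one_iff_subset_singleton.1 h1
  refine ⟨m, ?_⟩
  have hpt : ∀ n ∈ J.erase m, f n ≤ a + ∑ i ∈ Finset.range I, (if a * 2 ^ i < f n then a * 2 ^ i else 0)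
      + ∑ k ∈ Finset.Icc 2 K, (if b / 2 ^ k < f n then 2 * b / 2 ^ k else 0) := by
    intro n hn
    rw [Finset.mem_erase] at hn
    have hx : f n ≤ b / 2 := by
      by_contra hc
      push Not at hc
      have : n ∈ (J.filter fun n => b / 2 ^ 1 < f n) := by
        rw [Finset.mem_filter, pow_one]
        exact ⟨hn.2, hc⟩
      exact hn.1 (Finset.mem_singleton.1 (hm this))
    have p1 : (0 : ℝ) ≤ ∑ i ∈ Finset.range I, (if a * 2 ^ i < f n then a * 2 ^ i else 0) := by
      apply Finset.sum_nonneg
      intro k _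
      split_ifs
      · positivity
      · exact le_rfl
    have p2 : (0 : ℝ) ≤ ∑ k ∈ Finset.Icc 2 K, (if b / 2 ^ k < f n then 2 * b / 2 ^ k else 0) := by
      apply Finset.sum_nonneg
      intro k _
      split_ifs
      · positivity
      · exact le_rfl
    by_cases h2 : f n ≤ a * 2 ^ I
    · have := sl_low (f n) a ha I h2
      linarith
    · push Not at h2
      have := sl_high (f n) b hb hx K hK1 (lt_of_le_of_lt hab h2)
      linarith
  have hnn : ∀ n, (0 : ℝ) ≤ a + ∑ i ∈ Finset.range I, (if a * 2 ^ i < f n then a * 2 ^ i else 0)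
      + ∑ k ∈ Finset.Icc 2 K, (if b / 2 ^ k < f n then 2 * b / 2 ^ k else 0) := by
    intro n
    refine add_nonneg (add_nonneg ha.le (Finset.sum_nonneg ?_)) (Finset.sum_nonneg ?_)
    · intro k _
      split_ifs
      · positivity
      · exact le_rfl
    · intro k _
      split_ifs
      · positivity
      · exact le_rfl
  calc ∑ n ∈ J.erase m, f n
      ≤ ∑ n ∈ J.erase m, (a + ∑ i ∈ Finset.range I, (if a * 2 ^ i < f n then a * 2 ^ i else 0)
      + ∑ k ∈ Finset.Icc 2 K, (if b / 2 ^ k < f n then 2 * b / 2 ^ k else 0)) :=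
        Finset.sum_le_sum hpt
    _ ≤ ∑ n ∈ J, (a + ∑ i ∈ Finset.range I, (if a * 2 ^ i < f n then a * 2 ^ i else 0)
      + ∑ k ∈ Finset.Icc 2 K, (if b / 2 ^ k < f n then 2 * b / 2 ^ k else 0)) :=
        Finset.sum_le_sum_of_subset_of_nonneg (Finset.erase_subset _ _) (fun n _ _ => hnn n)
    _ = a * J.card + ∑ i ∈ Finset.range I, (a * 2 ^ i) * ((J.filter fun n => a * 2 ^ i < f n).card : ℝ)
      + ∑ k ∈ Finset.Icc 2 K, (2 * b / 2 ^ k) * ((J.filter fun n => b / 2 ^ k < f n).card : ℝ) := by
        rw [Finset.sum_add_distrib, Finset.sum_add_distrib, Finset.sum_const, nsmul_eq_mul,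
          Finset.sum_comm, Finset.sum_comm (s := J) (t := Finset.Icc 2 K)]
        congr 1
        · congr 1
          · ring
          · apply Finset.sum_congr rfl
            intro i _
            rw [← Finset.sum_filter, Finset.sum_const, nsmul_eq_mul]
            ring
        · apply Finset.sum_congr rfl
          intro i _
          rw [← Finset.sum_filter, Finset.sum_const, nsmul_eq_mul]
          ring
    _ ≤ a * J.card + ∑ i ∈ Finset.range I, 2 * a * (J.card : ℝ)
      + ∑ k ∈ Finset.Icc 2 K, 2 * b := by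
        refine add_le_add (add_le_add le_rfl (Finset.sum_le_sum ?_)) (Finset.sum_le_sum ?_)
        · intro i hi
          have h3 := hI i (Finset.mem_range.1 hi)
          have hp : (0 : ℝ) < 2 ^ i := by positivity
          calc a * 2 ^ i * ((J.filter fun n => a * 2 ^ i < f n).card : ℝ)
              ≤ a * 2 ^ i * (2 * J.card / 2 ^ i) := by gcongr
            _ = 2 * a * (J.card : ℝ) := by field_simp
        · intro k hk
          rw [Finset.mem_Icc] at hk
          have h3 := hK k (by omega) hk.2
          have h4 : (((J.filter fun n => b / 2 ^ k < f n).card : ℕ) : ℝ) ≤ 2 ^ k := by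
            exact_mod_cast h3.le
          calc 2 * b / 2 ^ k * ((J.filter fun n => b / 2 ^ k < f n).card : ℝ)
              ≤ 2 * b / 2 ^ k * 2 ^ k := by gcongr
            _ = 2 * b := by field_simp
    _ ≤ a * J.card + 2 * a * J.card * I + 2 * b * K := by
        rw [Finset.sum_const, Finset.sum_const, Finset.card_range, Nat.card_Icc, nsmul_eq_mul,
          nsmul_eq_mul]
        have h6 : ((K + 1 - 2 : ℕ) : ℝ) ≤ K := by
          have : K + 1 - 2 ≤ K := by omega
          exact_mod_cast this
        have h7 : ((K + 1 - 2 : ℕ) : ℝ) * (2 * b) ≤ K * (2 * b) := by gcongr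
        linarith

end Pool.Agent.Helper77.MT
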